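import Pool.Agent.Q205.GR.Main

/-!
# Positive Grothendieck algebras: pointwise algebraic convergence of homomorphisms into measure
algebras is uniform

Answer YES to both questions: if a Boolean algebra has the Grothendieck property (or only the
positive Grothendieck property) then every pointwise algebraically convergent sequence of
homomorphisms into the measure algebra of any probability space (in particular into the measure
algebra of `2^κ`, for every `κ`) converges uniformly.
-/

set_option autoImplicit false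

namespace Pool.Agent.Results.MP_955413_lc.UniformConvergence

open Filter Topology Set MeasureTheory Pool.Agent.Q205.GR

universe u v

/-- The Grothendieck property of a Boolean algebra: every weak-star convergent sequence in the
dual of the continuous functions on the Stone space converges weakly. -/
def Grothendieck (𝔸 : Type u) [BooleanAlgebra 𝔸] : Prop :=
  ∀ (L : ℕ → StrongDual ℝ C(St 𝔸, ℝ)) (L' : StrongDual ℝ C(St 𝔸, ℝ)),
    (∀ f, Tendsto (fun n => L n f) atTop (𝓝 (L' f))) →
    ∀ F : StrongDual ℝ (StrongDual ℝ C(St 𝔸, ℝ)), Tendsto (fun n => F (L n)) atTop (𝓝 (F L'))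

/-- Pointwise algebraic convergence of homomorphisms into the measure algebra of `P`. -/
def ConvergesAlgebraically {𝔸 : Type u} [BooleanAlgebra 𝔸] {Ω : Type v} [MeasurableSpace Ω]
    {P : Measure Ω} (φ : ℕ → MHom 𝔸 P) (ψ : MHom 𝔸 P) : Prop :=
  ∀ a : 𝔸, (⋃ n, ⋂ m > n, (φ m).toSet a) =ᵐ[P] ψ.toSet a ∧
    (⋂ n, ⋃ m > n, (φ m).toSet a) =ᵐ[P] ψ.toSet a

/-- Uniform convergence of homomorphisms into the measure algebra of `P`. -/
def ConvergesUniformly {𝔸 : Type u} [BooleanAlgebra 𝔸] {Ω : Type v} [MeasurableSpace Ω]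
    {P : Measure Ω} (φ : ℕ → MHom 𝔸 P) (ψ : MHom 𝔸 P) : Prop :=
  Tendsto (fun n => ⨆ a : 𝔸, P (symmDiff ((φ n).toSet a) (ψ.toSet a))) atTop (𝓝 0)

theorem aeConv_of_algebraic {𝔸 : Type u} [BooleanAlgebra 𝔸] {Ω : Type v} [MeasurableSpace Ω]
    {P : Measure Ω} {φ : ℕ → MHom 𝔸 P} {ψ : MHom 𝔸 P} (h : ConvergesAlgebraically φ ψ) :
    AEConv φ ψ := by
  intro a
  obtain ⟨h1, h2⟩ := h a
  rw [Filter.eventuallyEq_set] at h1 h2
  filter_upwards [h1, h2] with ω h1 h2
  by_cases hω : ω ∈ ψ.toSet a
  · obtain ⟨n, hn⟩ := Set.mem_iUnion.1 (h1.2 hω)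
    rw [Set.mem_iInter₂] at hn
    filter_upwards [eventually_gt_atTop n] with m hm
    exact ⟨fun _ => hω, fun _ => hn m hm⟩
  · have h3 : ω ∉ ⋂ n, ⋃ m > n, (φ m).toSet a := fun h => hω (h2.1 h)
    rw [Set.mem_iInter] at h3
    push Not at h3
    obtain ⟨n, hn⟩ := h3
    filter_upwards [eventually_gt_atTop n] with m hm
    refine ⟨fun h => absurd (Set.mem_iUnion₂.2 ⟨m, hm, h⟩) hn, fun h => absurd h hω⟩

theorem uniform_of_positive {𝔸 : Type u} [BooleanAlgebra 𝔸] (hG : PositiveGrothendieck 𝔸)
    {Ω : Type v} [MeasurableSpace Ω] {P : Measure Ω} [IsProbabilityMeasure P]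
    {φ : ℕ → MHom 𝔸 P} {ψ : MHom 𝔸 P} (h : ConvergesAlgebraically φ ψ) :
    ConvergesUniformly φ ψ := by
  have hc := aeConv_of_algebraic h
  by_contra hn
  rw [ConvergesUniformly, ENNReal.tendsto_nhds_zero] at hn
  push Not at hn
  obtain ⟨ε, hε, hn⟩ := hn
  obtain ⟨s, hs, hs'⟩ := Filter.extraction_of_frequently_atTop hn
  have h1 : ∀ j, ∃ a : 𝔸, ε < P (symmDiff ((φ (s j)).toSet a) (ψ.toSet a)) := fun j =>
    lt_iSup_iff.1 (hs' j)
  choose a ha using h1
  have hεt : ε ≠ ⊤ := ((ha 0).trans_le le_top).ne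
  refine main_real hG (ψ := fun j => φ (s j)) (φ := ψ) (fun b => ?_) a
    (ENNReal.toReal_pos hε.ne' hεt) fun j => ?_
  · filter_upwards [hc b] with ω hω
    exact hs.tendsto_atTop.eventually hω
  · exact ENNReal.toReal_mono (measure_ne_top _ _) (ha j).le

/-- **Both questions have the answer yes.** For every Boolean algebra with the Grothendieck
property (first part), and even for every Boolean algebra with the positive Grothendieck property
(second part), every pointwise algebraically convergent sequence of homomorphisms into the measure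
algebra of a probability space converges uniformly. -/
theorem result :
    (∀ (𝔸 : Type u) [BooleanAlgebra 𝔸], Grothendieck 𝔸 →
      ∀ (Ω : Type v) [MeasurableSpace Ω] (P : Measure Ω) [IsProbabilityMeasure P]
        (φ : ℕ → MHom 𝔸 P) (ψ : MHom 𝔸 P), ConvergesAlgebraically φ ψ →
          ConvergesUniformly φ ψ) ∧
    (∀ (𝔸 : Type u) [BooleanAlgebra 𝔸], PositiveGrothendieck 𝔸 →
      ∀ (Ω : Type v) [MeasurableSpace Ω] (P : Measure Ω) [IsProbabilityMeasure P]
        (φ : ℕ → MHom 𝔸 P) (ψ : MHom 𝔸 P), ConvergesAlgebraically φ ψ →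
          ConvergesUniformly φ ψ) := by
  refine ⟨?_, ?_⟩
  · intro 𝔸 _ hG Ω _ P _ φ ψ h
    exact uniform_of_positive (fun L L' _ hw F => hG L L' hw F) h
  · intro 𝔸 _ hG Ω _ P _ φ ψ h
    exact uniform_of_positive hG h

end Pool.Agent.Results.MP_955413_lc.UniformConvergence
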